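import Pool.Agent.Lib.MP_cbe08d_co.Thin3

/-!
If adding `m` arcs, each inside a weak component, makes the source-sink reachability graph a
forest, then an arc set with at least `k (m + 1)` arcs in every directed cut splits into `k`
dijoins.
-/

set_option autoImplicit false

namespace Pool.Agent.Results.MP_cbe08d_co.ArcsToForest

/-- `Reach tail head x y`: there is a directed path (possibly of length zero) from `x` to `y`. -/
def Reach {V A : Type} (tail head : A → V) : V → V → Prop :=
  Relation.ReflTransGen fun x y => ∃ a : A, tail a = x ∧ head a = y

/-- Two vertices are equivalent when each reaches the other; the classes are the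
strongly connected components. -/
def strongSetoid {V A : Type} (tail head : A → V) : Setoid V where
  r x y := Reach tail head x y ∧ Reach tail head y x
  iseqv := ⟨fun _ => ⟨Relation.ReflTransGen.refl, Relation.ReflTransGen.refl⟩,
    fun h => ⟨h.2, h.1⟩,
    fun h1 h2 => ⟨Relation.ReflTransGen.trans h1.1 h2.1, Relation.ReflTransGen.trans h2.2 h1.2⟩⟩

/-- The source-sink reachability graph: its vertices are the strong components, and a source
component (nothing outside reaches it) is joined to a different sink component
(it reaches nothing outside) when the former reaches the latter. -/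
def sourceSinkGraph {V A : Type} (tail head : A → V) :
    SimpleGraph (Quotient (strongSetoid tail head)) :=
  SimpleGraph.fromRel fun C D => ∃ s u : V,
    Quotient.mk (strongSetoid tail head) s = C ∧ Quotient.mk (strongSetoid tail head) u = D ∧
    (∀ x, Reach tail head x s → Reach tail head s x) ∧
    (∀ x, Reach tail head u x → Reach tail head x u) ∧ Reach tail head s u

open Pool.Agent.Lib.MP_cbe08d_co in
theorem result :
    ∀ k m : ℕ, 0 < k →
      ∀ (V A : Type) [Finite V] [Finite A] (tail head : A → V) (J : Set A) (xt xh : Fin m → V),
        (∀ j : Fin m,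
          Relation.EqvGen (fun x y => ∃ a : A, tail a = x ∧ head a = y) (xt j) (xh j)) →
        (sourceSinkGraph (Sum.elim tail xt) (Sum.elim head xh)).IsAcyclic →
        (∀ S : Set V, (∀ a : A, head a ∈ S → tail a ∈ S) →
            (∃ a : A, tail a ∈ S ∧ head a ∉ S) →
            k * (m + 1) ≤ Set.ncard {a : A | a ∈ J ∧ tail a ∈ S ∧ head a ∉ S}) →
        ∃ c : A → Fin k, ∀ i : Fin k, ∀ S : Set V,
            (∀ a : A, head a ∈ S → tail a ∈ S) →
            (∃ a : A, tail a ∈ S ∧ head a ∉ S) →
            ∃ a : A, a ∈ J ∧ c a = i ∧ tail a ∈ S ∧ head a ∉ S := by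
  intro k m hk V A _ _ tail head J xt xh hx hG hJ
  refine Thin.transfer k m hk tail head J xt xh (fun j K hK => ?_) hG hJ
  have h := hx j
  generalize xt j = x at h ⊢
  generalize xh j = y at h ⊢
  induction h with
  | rel x y h =>
    obtain ⟨a, rfl, rfl⟩ := h
    exact hK a
  | refl x => exact Iff.rfl
  | symm x y _ ih => exact ih.symm
  | trans x y z _ _ ih1 ih2 => exact ih1.trans ih2

end Pool.Agent.Results.MP_cbe08d_co.ArcsToForest
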