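import Pool.Agent.Lib.MP_cbe08d_co.Mn.Tor

/-!
Digraphs whose reachability order has dimension at most three: an arc set with at least `9 k - 7`
arcs in every directed cut splits into `k` dijoins.
-/

set_option autoImplicit false

namespace Pool.Agent.Results.MP_cbe08d_co.DimThreeDijoins

/-- `x` reaches `y` along a directed path, possibly of length zero. -/
def Reach {V A : Type} (tail head : A → V) : V → V → Prop :=
  Relation.ReflTransGen fun x y => ∃ a : A, tail a = x ∧ head a = y

open Pool.Agent.Lib.MP_cbe08d_co.Mn in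
theorem result :
    ∀ k : ℕ, 0 < k →
      ∀ (V A : Type) [Finite V] [Finite A] (tail head : A → V) (J : Set A) (p : V → Fin 3 → ℝ),
        (∀ x y : V, Reach tail head x y ↔ ∀ i, p x i ≤ p y i) →
        (∀ S : Set V, (∀ a : A, head a ∈ S → tail a ∈ S) →
            (∃ a : A, tail a ∈ S ∧ head a ∉ S) →
            9 * k - 7 ≤ Set.ncard {a : A | a ∈ J ∧ tail a ∈ S ∧ head a ∉ S}) →
        ∃ c : A → Fin k, ∀ i : Fin k, ∀ S : Set V,
            (∀ a : A, head a ∈ S → tail a ∈ S) →
            (∃ a : A, tail a ∈ S ∧ head a ∉ S) →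
            ∃ a : A, a ∈ J ∧ c a = i ∧ tail a ∈ S ∧ head a ∉ S := by
  intro k hk V A _ _ tail head J p h hJ
  exact dijoins hk tail head J (su_three (c := p) h)
    (su_three (c := fun x => -p x) fun x y => by
      rw [neg_le_neg_iff, reach_swap]
      exact h y x)
    fun S h1 h2 => le_trans (by omega) (hJ S h1 h2)

end Pool.Agent.Results.MP_cbe08d_co.DimThreeDijoins
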