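import Pool.Agent.Lib.MP_cbe08d_co.Mn.Tor

/-!
Digraphs whose underlying graph has no `K_(t+2)` minor: an arc set with at least
`2 ^ t (k - 1) + 2 k` arcs in every directed cut splits into `k` dijoins.
-/

set_option autoImplicit false

namespace Pool.Agent.Results.MP_cbe08d_co.MinorFreeDijoins

/-- The underlying simple graph of a digraph: two different vertices are adjacent when some arc
joins them in one of the two directions. -/
def underlying {V A : Type} (tail head : A → V) : SimpleGraph V :=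
  SimpleGraph.fromRel fun x y => ∃ a : A, tail a = x ∧ head a = y

/-- `G` has a `K_r` minor: `r` pairwise disjoint vertex sets, each inducing a connected (so
nonempty) subgraph, any two of them joined by an edge. -/
def CliqueMinor {V : Type} (r : ℕ) (G : SimpleGraph V) : Prop :=
  ∃ B : Fin r → Set V, (∀ i, (G.induce (B i)).Connected) ∧
    ∀ i j, i ≠ j → Disjoint (B i) (B j) ∧ ∃ x ∈ B i, ∃ y ∈ B j, G.Adj x y

open Pool.Agent.Lib.MP_cbe08d_co.Mn in
theorem result :
    ∀ t k : ℕ, 0 < k →
      ∀ (V A : Type) [Finite V] [Finite A] (tail head : A → V) (J : Set A),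
        ¬CliqueMinor (t + 2) (underlying tail head) →
        (∀ S : Set V, (∀ a : A, head a ∈ S → tail a ∈ S) →
            (∃ a : A, tail a ∈ S ∧ head a ∉ S) →
            2 ^ t * (k - 1) + 2 * k ≤ Set.ncard {a : A | a ∈ J ∧ tail a ∈ S ∧ head a ∉ S}) →
        ∃ c : A → Fin k, ∀ i : Fin k, ∀ S : Set V,
            (∀ a : A, head a ∈ S → tail a ∈ S) →
            (∃ a : A, tail a ∈ S ∧ head a ∉ S) →
            ∃ a : A, a ∈ J ∧ c a = i ∧ tail a ∈ S ∧ head a ∉ S := by
  intro t k hk V A _ _ tail head J h hJ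
  have sp : Sp (2 ^ t) (underlying tail head) := sp_of_not_hasK fun ⟨B, b1, b2, b3⟩ =>
    h ⟨B, fun i => cn_iff.2 (b1 i), fun i j e => ⟨b2 i j e, b3 i j e⟩⟩
  exact dijoins hk tail head J
    (su_graph sp fun x y e => (em _).imp_right fun k =>
      (SimpleGraph.fromRel_adj _ _ _).2 ⟨k, Or.inl e⟩)
    (su_graph sp fun x y ⟨a, e⟩ => (em _).imp_right fun k =>
      (SimpleGraph.fromRel_adj _ _ _).2 ⟨k, Or.inr ⟨a, e.symm⟩⟩) hJ

end Pool.Agent.Results.MP_cbe08d_co.MinorFreeDijoins
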