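import Pool.Agent.Lib.MP_cbe08d_co.Lg.Final

/-!
If at most `2 ^ l` vertices are reached from all vertices (or reach all vertices), then an arc set
with at least `k (l + 2) (2 l + 3) ^ 2` arcs in every directed cut splits into `k` dijoins.
-/

set_option autoImplicit false

namespace Pool.Agent.Results.MP_cbe08d_co.PolylogDijoins

/-- `Reach tail head x y`: there is a directed path (possibly of length zero) from `x` to `y`. -/
def Reach {V A : Type} (tail head : A → V) : V → V → Prop :=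
  Relation.ReflTransGen fun x y => ∃ a : A, tail a = x ∧ head a = y

open Pool.Agent.Lib.MP_cbe08d_co in
theorem result :
    ∀ k l : ℕ, 0 < k →
      ∀ (V A : Type) [Finite V] [Finite A] (tail head : A → V) (J : Set A) (T : Set V),
        T.ncard ≤ 2 ^ l →
        ((∀ v : V, ∃ t ∈ T, Reach tail head v t) ∨ ∀ v : V, ∃ t ∈ T, Reach tail head t v) →
        (∀ S : Set V, (∀ a : A, head a ∈ S → tail a ∈ S) →
            (∃ a : A, tail a ∈ S ∧ head a ∉ S) →
            k * (l + 2) * (2 * l + 3) ^ 2 ≤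
              Set.ncard {a : A | a ∈ J ∧ tail a ∈ S ∧ head a ∉ S}) →
        ∃ c : A → Fin k, ∀ i : Fin k, ∀ S : Set V,
            (∀ a : A, head a ∈ S → tail a ∈ S) →
            (∃ a : A, tail a ∈ S ∧ head a ∉ S) →
            ∃ a : A, a ∈ J ∧ c a = i ∧ tail a ∈ S ∧ head a ∉ S := by
  intro k l hk V A _ _ tail head J T hc hT hJ
  have key : ∀ S : Set V, (∀ a, head a ∈ S → tail a ∈ S) → ∀ x y, Reach tail head x y →
      y ∈ S → x ∈ S := by
    intro S hS x y h
    induction h with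
    | refl => exact id
    | tail _ h ih =>
      obtain ⟨a, rfl, rfl⟩ := h
      exact fun h' => ih (hS a h')
  rcases hT with hT | hT
  · refine Lg.digraph_main hk tail head J T hc (fun S hS hu => ?_) hJ
    obtain ⟨v, hv⟩ := (Set.ne_univ_iff_exists_notMem S).1 hu
    obtain ⟨t, ht, h⟩ := hT v
    exact ⟨t, ht, fun h' => hv (key S hS v t h h')⟩
  · obtain ⟨c, h⟩ := Lg.digraph_main (l := l) hk head tail J T hc (fun S hS hu => by
      obtain ⟨v, hv⟩ := (Set.ne_univ_iff_exists_notMem S).1 hu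
      obtain ⟨t, ht, h⟩ := hT v
      exact ⟨t, ht, key Sᶜ (fun a h1 h2 => h1 (hS a h2)) t v h hv⟩) fun S hS ⟨a, h1, h2⟩ => by
      refine (hJ Sᶜ (fun a h1 h2 => h1 (hS a h2)) ⟨a, h2, not_not.2 h1⟩).trans
        (Set.ncard_le_ncard (fun b hb => ⟨hb.1, not_not.1 hb.2.2, hb.2.1⟩) (Set.toFinite _))
    refine ⟨c, fun i S hS ⟨a, h1, h2⟩ => ?_⟩
    obtain ⟨b, k1, k2, k3, k4⟩ := h i Sᶜ (fun a h1 h2 => h1 (hS a h2)) ⟨a, h2, not_not.2 h1⟩
    exact ⟨b, k1, k2, not_not.1 k4, k3⟩

end Pool.Agent.Results.MP_cbe08d_co.PolylogDijoins
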